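import Pool.Agent.N179.FG.Tat
import Pool.Agent.N179.HT.Mix

/-!
# The Tate conjecture over finitely generated fields for products with K3 surfaces with reductions of
different heights
-/

set_option autoImplicit false
set_option linter.unusedSectionVars false

open CategoryTheory AlgebraicGeometry NumberField
open scoped TensorProduct

universe u v w

namespace Pool.Agent.N179.FG

open Pool.Agent.H914 Pool.Agent.H914.VarClass Pool.Agent.H914.VarClass.Obj
  Pool.Agent.H914.WeilCohomology Pool.Agent.H281R3.HT Pool.Agent.TH125.Gal Pool.Agent.N179.TL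
  Pool.Agent.TH121.KT Pool.Agent.W517.K3

variable {k : Type u} [Field k] {𝒱 : VarClass k} {ops : CycleOps 𝒱}
  {W : WeilCohomology.{u, v} ops} {Γ : Type w} [Group Γ] {χ : Γ →* W.Kˣ}
  {F : Γ} {p m : ℕ} [Fact p.Prime]

theorem act_pow (X : GVar W Γ) (n : ℕ) {x : W.H X.X} {μ : W.K} (hx : X.act F x = μ • x) :
    X.act (F ^ n) x = μ ^ n • x := by
  induction n with
  | zero => rw [pow_zero, pow_zero, map_one, one_smul]; rfl
  | succ n ih =>
    rw [pow_succ, map_mul]
    change X.act (F ^ n) (X.act F x) = _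
    rw [hx, map_smul, ih, smul_smul, pow_succ']

/-- The eigenvalues of the Frobenius element on the cohomology of `X`. -/
theorem eig_K3 [IsAlgClosed W.K] {X : GVar W Γ} {E : Type} [Field E] [NumberField E] {α : E}
    {h b n₀ : ℕ} (hχ : (χ F : W.K) = (p : W.K) ^ m) (hX : HasK3Reduction χ F p m X α h b n₀)
    {μ : W.K} (hμ : Module.End.HasEigenvalue (X.act F).toLinearMap μ) :
    ∃ (D : ℕ) (N : (E →+* W.K) → ℕ), ∑ σ, N σ ≤ n₀ ∧
      RootEq μ ((p : W.K) ^ (m * D) * ∏ σ, σ α ^ N σ) := by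
  have hG : IsGalois W χ X.X X.act := isGalois hX.galois
  have hDX := hX.homEqNum
  obtain ⟨x, hx, hx0⟩ := hμ.exists_hasEigenvector
  have hx1 : X.act F x = μ • x := Module.End.mem_eigenspace_iff.1 hx
  by_cases ht : pT hDX x = 0
  · have ha : x ∈ algSpan W X.X := (pT_eq_zero hDX).1 ht
    obtain ⟨s⟩ := exists_SB hDX
    obtain ⟨Δ', hΔ', hfix⟩ := exists_fix hG s
    obtain ⟨n, hn, -, hnΔ⟩ := Subgroup.exists_pow_mem_of_index_ne_zero hΔ'.index_ne_zero F
    obtain ⟨i, hi⟩ : ∃ i, s.bC.repr ⟨x, ha⟩ i ≠ 0 := by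
      by_contra hcon
      push Not at hcon
      apply hx0
      have h1 := s.bC.sum_repr ⟨x, ha⟩
      rw [Finset.sum_eq_zero fun i _ => by rw [hcon i, zero_smul]] at h1
      exact (congrArg Subtype.val h1).symm
    have h1 := act_pow X n hx1
    have hsum : (x : W.H X.X) = ∑ i, s.bC.repr ⟨x, ha⟩ i • (s.bC i : W.H X.X) := by
      conv_lhs => rw [show x = ((⟨x, ha⟩ : algSpan W X.X) : W.H X.X) from rfl,
        ← s.bC.sum_repr ⟨x, ha⟩]
      rw [Submodule.coe_sum]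
      rfl
    have h2 : ∑ i, (s.bC.repr ⟨x, ha⟩ i * (χ (F ^ n) : W.K) ^ s.jC i) • (s.bC i : W.H X.X) =
        ∑ i, (μ ^ n * s.bC.repr ⟨x, ha⟩ i) • (s.bC i : W.H X.X) := by
      conv at h1 => rw [hsum, map_sum, Finset.smul_sum]
      convert h1 using 1
      · refine Finset.sum_congr rfl fun i _ => ?_
        rw [map_smul, hfix _ hnΔ, smul_smul]
      · refine Finset.sum_congr rfl fun i _ => ?_
        rw [smul_smul]
    have h3 : ∑ i, (s.bC.repr ⟨x, ha⟩ i * (χ (F ^ n) : W.K) ^ s.jC i) • s.bC i =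
        ∑ i, (μ ^ n * s.bC.repr ⟨x, ha⟩ i) • s.bC i := by
      apply Subtype.ext
      rw [Submodule.coe_sum, Submodule.coe_sum]
      exact h2
    have h4 := congrArg (fun y => s.bC.repr y i) h3
    simp only [Module.Basis.repr_sum_self] at h4
    rw [mul_comm] at h4
    have h5 := mul_right_cancel₀ hi h4
    refine ⟨s.jC i, fun _ => 0, by simp, n, hn, ?_⟩
    rw [Finset.prod_eq_one fun σ _ => pow_zero _, mul_one, ← h5, map_pow,
      Units.val_pow_eq_pow_val, hχ, ← pow_mul, ← pow_mul, ← pow_mul]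
    congr 1
    ring
  · have h1 : X.act F (pT hDX x) = μ • pT hDX x := by
      rw [← pT_act hDX hG, hx1, map_smul]
    obtain ⟨D, N, hN, h2⟩ := hX.act.eigen μ _ (pT_mem hDX x) ⟨ht, h1⟩
    exact ⟨D, N, hN, by rwa [pow_mul]⟩

/-- The eigenvalues on the products. -/
theorem eig_prod [IsAlgClosed W.K] {X Y : GVar W Γ}
    {υ : Γ →* (W.H (X.X.prod Y.X) ≃ₐ[W.K] W.H (X.X.prod Y.X))}
    (h1 : Intertwines (W.map (fst X.X Y.X)) X.act υ)
    (h2 : Intertwines (W.map (snd X.X Y.X)) Y.act υ) {ν : W.K}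
    (hν : Module.End.HasEigenvalue (υ F).toLinearMap ν) :
    ∃ μ μ', Module.End.HasEigenvalue (X.act F).toLinearMap μ ∧
      Module.End.HasEigenvalue (Y.act F).toLinearMap μ' ∧ ν = μ * μ' := by
  have hcomm : ∀ z : TensorProduct W.K (W.H X.X) (W.H Y.X), υ F (kEquiv W X.X Y.X z) =
      kEquiv W X.X Y.X (TensorProduct.map (X.act F).toLinearMap (Y.act F).toLinearMap z) := by
    intro z
    induction z using TensorProduct.induction_on with
    | zero => simp
    | tmul x y =>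
      rw [TensorProduct.map_tmul, kEquiv_tmul, kEquiv_tmul, map_mul, h1 F, h2 F]
      rfl
    | add x y hx hy => rw [map_add, map_add, hx, hy, map_add, map_add]
  obtain ⟨x, hx, hx0⟩ := hν.exists_hasEigenvector
  have hx1 : υ F x = ν • x := Module.End.mem_eigenspace_iff.1 hx
  have h3 : Module.End.HasEigenvalue (TensorProduct.map (X.act F).toLinearMap
      (Y.act F).toLinearMap : Module.End W.K (TensorProduct W.K (W.H X.X) (W.H Y.X))) ν := by
    refine Module.End.hasEigenvalue_of_hasEigenvector (x := (kEquiv W X.X Y.X).symm x)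
      ⟨Module.End.mem_eigenspace_iff.2 ?_, fun h => hx0 ?_⟩
    · apply (kEquiv W X.X Y.X).injective
      rw [← hcomm, LinearEquiv.apply_symm_apply, hx1, map_smul, LinearEquiv.apply_symm_apply]
    · rw [← (kEquiv W X.X Y.X).apply_symm_apply x, h, map_zero]
  exact eig_tensor (X.act F).injective h3

section tower

variable {r : ℕ} {E : Fin r → Type} [∀ i, Field (E i)] [∀ i, NumberField (E i)]
  [∀ i, IsCMField (E i)] {α : ∀ i, E i} {h b n : Fin r → ℕ} {X : Fin r → GVar W Γ} {Z : GVar W Γ}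
  {G : Set ℚ}

/-- The eigenvalues on the products. -/
def IsWord (p m : ℕ) [Fact p.Prime] (G : Set ℚ) (α : ∀ i, E i) (n : Fin r → ℕ)
    (S : Finset (Fin r)) (ν : W.K) : Prop :=
  ∃ (N' : ∀ i, (E i →+* W.K) → ℕ) (D : ℕ) (ν₁ : W.K), (∀ i ∉ S, ∀ σ, N' i σ = 0) ∧
    (∀ i, ∑ σ, N' i σ ≤ n i) ∧ HasSlopesIn p m G ν₁ ∧
    RootEq ν ((p : W.K) ^ (m * D) * (letterProd α (fun _ => 1) N' * ν₁))

theorem sum_single {i : Fin r} (N' : ∀ i, (E i →+* W.K) → ℕ) (hi : ∀ σ, N' i σ = 0)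
    (hN : ∀ i, ∑ σ, N' i σ ≤ n i) {N₀ : (E i →+* W.K) → ℕ} (h₀ : ∑ σ, N₀ σ ≤ n i) (j : Fin r) :
    ∑ σ : E j →+* W.K, (N' j σ + (Pi.single i N₀ : ∀ i, (E i →+* W.K) → ℕ) j σ) ≤ n j := by
  rw [Finset.sum_add_distrib]
  by_cases hij : j = i
  · subst hij
    rw [Finset.sum_eq_zero fun σ _ => hi σ, zero_add, Pi.single_eq_same]
    exact h₀
  · rw [Pi.single_eq_of_ne hij]
    simpa using hN j

theorem letterProd_word (i : Fin r) (N₀ : (E i →+* W.K) → ℕ) :
    letterProd α (fun _ => 1) (Pi.single i N₀) = ∏ σ, σ (α i) ^ N₀ σ := by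
  unfold letterProd
  rw [Finset.prod_eq_single i]
  · rw [Pi.single_eq_same]
    simp
  · intro j _ hj
    refine Finset.prod_eq_one fun σ _ => ?_
    rw [Pi.single_eq_of_ne hj]
    simp
  · intro h
    exact absurd (Finset.mem_univ _) h

theorem tower_eig [IsAlgClosed W.K] (hχ : (χ F : W.K) = (p : W.K) ^ m)
    (hX : ∀ i, HasK3Reduction χ F p m (X i) (α i) (h i) (b i) (n i))
    (hZ : SlopesAct Z.act F p m G)
    {S : Finset (Fin r)} {Y : GVar W Γ} (hY : Tower X Z S Y) {ν : W.K}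
    (hν : Module.End.HasEigenvalue (Y.act F).toLinearMap ν) : IsWord p m G α n S ν := by
  classical
  induction hY generalizing ν with
  | base =>
    obtain ⟨x, hx, hx0⟩ := hν.exists_hasEigenvector
    refine ⟨fun _ _ => 0, 0, ν, fun _ _ _ => rfl, fun i => by simp,
      hZ ν x ⟨hx0, Module.End.mem_eigenspace_iff.1 hx⟩, ?_⟩
    have h1 : letterProd α (fun _ => 1) (fun i (_ : E i →+* W.K) => 0) = (1 : W.K) := by
      unfold letterProd
      simp
    rw [h1, mul_zero, pow_zero, one_mul, one_mul]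
    exact RootEq.refl ν
  | @step S Y i υ hY hi h1 h2 ih =>
    obtain ⟨μ, μ', hμ, hμ', rfl⟩ := eig_prod h1 h2 hν
    obtain ⟨N', D', ν₁, h3, h4, h5, h6⟩ := ih hμ'
    obtain ⟨D, N₀, h0, h7⟩ := eig_K3 hχ (hX i) hμ
    refine ⟨fun j σ => N' j σ + (Pi.single i N₀ : ∀ i, (E i →+* W.K) → ℕ) j σ, D + D', ν₁, ?_,
      sum_single N' (h3 i hi) h4 h0, h5, ?_⟩
    · intro j hj σ
      rw [Finset.mem_insert, not_or] at hj
      beta_reduce
      rw [h3 j hj.2 σ, Pi.single_eq_of_ne hj.1]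
      rfl
    · have h8 := h7.mul h6
      rw [HT.letterProd_add, letterProd_word, mul_add, pow_add]
      convert h8 using 1
      ring

/-- A balanced word is a root of unity. -/
theorem balanced_word {E : Type} [Field E] [NumberField E] [IsCMField E] {α : E}
    (hα : ∀ φ : E →+* ℂ, ‖φ α‖ = 1) {N : (E →+* W.K) → ℕ} (hN : ∀ σ, N σ = N (cj σ)) :
    RootEq (∏ σ, σ α ^ N σ) 1 := by
  refine ⟨2, two_pos, ?_⟩
  have h1 : ∏ σ : E →+* W.K, σ α ^ N σ = ∏ σ : E →+* W.K, (σ α)⁻¹ ^ N σ := by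
    refine Finset.prod_bij' (fun σ _ => cj σ) (fun σ _ => cj σ) (fun _ _ => Finset.mem_univ _)
      (fun _ _ => Finset.mem_univ _) (fun σ _ => cj_cj σ) (fun σ _ => cj_cj σ) fun σ _ => ?_
    rw [cj_val hα, inv_inv, ← hN]
  rw [one_pow, pow_two]
  nth_rewrite 2 [h1]
  rw [← Finset.prod_mul_distrib]
  refine Finset.prod_eq_one fun σ _ => ?_
  rw [← mul_pow, mul_inv_cancel₀, one_pow]
  rw [ne_eq, map_eq_zero]
  exact TH121.KT.alpha_ne hα

/-- There are no relations. -/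
theorem no_rel [IsAlgClosed W.K] (hm : 0 < m) (hχ : (χ F : W.K) = (p : W.K) ^ m)
    (hX : ∀ i, HasK3Reduction χ F p m (X i) (α i) (h i) (b i) (n i))
    (hA : Admissible G h b (fun i => Module.finrank ℚ (E i) / 2)
      (fun i => localDegree p (α i)) n)
    {S : Finset (Fin r)} {i : Fin r} (hi : i ∉ S) {ν : W.K} (hν : IsWord p m G α n S ν)
    (D₀ : ℕ) {N₀ : (E i →+* W.K) → ℕ} (h0 : ∑ σ, N₀ σ ≤ n i) (j : ℕ)
    (hrel : RootEq ((p : W.K) ^ (m * D₀) * (∏ σ, σ (α i) ^ N₀ σ) * ν) ((χ F : W.K) ^ j)) :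
    RootEq (∏ σ, σ (α i) ^ N₀ σ) (1 : W.K) := by
  classical
  have hp := (Fact.out : p.Prime)
  have hpK : (p : W.K) ≠ 0 := Nat.cast_ne_zero.2 hp.ne_zero
  obtain ⟨N', D, ν₁, h3, h4, h5, h6⟩ := hν
  have h7 := (RootEq.mul (RootEq.refl ((p : W.K) ^ (m * D₀) * (∏ σ, σ (α i) ^ N₀ σ)))
    h6.symm).trans hrel
  obtain ⟨s, hs, h8⟩ := h7
  have hd : ∀ i, Module.finrank ℚ (E i) = 2 * (Module.finrank ℚ (E i) / 2) := by
    intro i
    have h6 : IsTotallyComplex (E i) := inferInstance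
    have h7 := IsTotallyComplex.finrank (E i)
    omega
  refine balanced_word (hX i).number.frob.unitary fun σ => ?_
  have hk := core (a := fun _ => m) (n := n) (fun _ => hm) (fun i => (hX i).number) hd hA hm
    (ν := ν₁) ⟨m, 1, ν₁, one_pos, (mul_one _).symm, (pow_one _).symm, h5⟩
    (fun l τ => N' l τ + (Pi.single i N₀ : ∀ i, (E i →+* W.K) → ℕ) l τ)
    (sum_single N' (h3 i hi) h4 h0) ((j : ℤ) - D₀ - D) s hs ?_ i σ
  · beta_reduce at hk
    rw [h3 i hi, h3 i hi, Pi.single_eq_same, zero_add, zero_add] at hk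
    exact hk
  · set P : ℕ := ∏ _l : Fin r, m with hP
    have hw : (fun l : Fin r => s * (m * ∏ _j ∈ Finset.univ.erase l, m)) = fun _ => s * P * 1 := by
      funext l
      rw [mul_one, hP, ← Finset.mul_prod_erase Finset.univ (fun _ => m) (Finset.mem_univ l)]
    rw [hw, ← letterProd_pow, HT.letterProd_add, letterProd_word]
    have h9 := congrArg (fun z => z ^ P) h8
    beta_reduce at h9
    rw [← pow_mul, ← pow_mul, hχ, ← pow_mul, ← pow_mul] at h9
    have h10 : (p : W.K) ^ (m * (D₀ + D) * (s * P)) ≠ 0 := pow_ne_zero _ hpK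
    apply mul_left_cancel₀ h10
    have h11 : (p : W.K) ^ (m * (D₀ + D) * (s * P)) * ((letterProd α (fun _ => 1) N' *
        ∏ σ, σ (α i) ^ N₀ σ) ^ (s * P) * ν₁ ^ (s * P)) =
        ((p : W.K) ^ (m * D₀) * (∏ σ, σ (α i) ^ N₀ σ) *
          ((p : W.K) ^ (m * D) * (letterProd α (fun _ => 1) N' * ν₁))) ^ (s * P) := by
      rw [mul_add, add_mul, pow_add, pow_mul (p : W.K) (m * D₀), pow_mul (p : W.K) (m * D),
        ← mul_pow, ← mul_pow, ← mul_pow]
      congr 1
      ring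
    rw [h11, h9, ← zpow_natCast, ← zpow_natCast, ← zpow_add₀ hpK]
    congr 1
    push_cast
    ring

/-- **The Tate conjecture.** -/
theorem tower_tate [IsAlgClosed W.K] (hm : 0 < m) (hχ : (χ F : W.K) = (p : W.K) ^ m)
    (hX : ∀ i, HasK3Reduction χ F p m (X i) (α i) (h i) (b i) (n i))
    (hA : Admissible G h b (fun i => Module.finrank ℚ (E i) / 2)
      (fun i => localDegree p (α i)) n) (hZ : SlopesAct Z.act F p m G)
    {S : Finset (Fin r)} {Y : GVar W Γ} (hY : Tower X Z S Y) :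
    TateConjecture χ Y ↔ TateConjecture χ Z := by
  induction hY with
  | base => exact Iff.rfl
  | @step S Y i υ hY hi h1 h2 ih =>
    rw [← ih]
    refine ⟨tate_conv0 (hX i).homEqNum (hX i).one_ne h2,
      tate_of_split (hX i).homEqNum (hX i).galois h1 h2 fun c j Δ hΔ hc => ?_⟩
    refine split_alg (hX i) h1 h2 (fun μ ν j hμ hν hrel => ?_) hΔ hc
    obtain ⟨x, hx, hx1⟩ := hμ
    obtain ⟨D, N₀, h0, h3⟩ := (hX i).act.eigen μ x hx hx1
    rw [← pow_mul] at h3
    have h4 := no_rel hm hχ hX hA hi (tower_eig hχ hX hZ hY hν) D h0 j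
      ((h3.symm.mul (RootEq.refl ν)).trans hrel)
    refine ⟨D, ?_⟩
    have h5 := h3.trans ((RootEq.refl ((p : W.K) ^ (m * D))).mul h4)
    rwa [mul_one, pow_mul] at h5

end tower

end Pool.Agent.N179.FG
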