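import Pool.Agent.TH125.Gal.Pub
import Pool.Agent.N179.TL.Defs

/-!
# K3 surfaces over finitely generated fields with reduction of finite height: definitions
-/

set_option autoImplicit false

open CategoryTheory AlgebraicGeometry

universe u v w

namespace Pool.Agent.N179.FG

open Pool.Agent.H914 Pool.Agent.H914.VarClass Pool.Agent.H914.VarClass.Obj
  Pool.Agent.H914.WeilCohomology Pool.Agent.H281R3.HT Pool.Agent.TH125.Gal Pool.Agent.N179.TL

section Alg

variable {K : Type v} [Field K] {A : Type v} [Ring A] [Algebra K A] {Γ : Type w} [Group Γ]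

/-- `x` and `y` differ by a root of unity (or both are zero). -/
def RootEq (x y : K) : Prop := ∃ s : ℕ, 0 < s ∧ x ^ s = y ^ s

/-- `x` is an eigenvector of `g` with the eigenvalue `μ`. -/
def IsEig (ρ : Γ →* (A ≃ₐ[K] A)) (g : Γ) (μ : K) (x : A) : Prop := x ≠ 0 ∧ ρ g x = μ • x

/-- The eigenvalues of `F` on the space `T` are, up to roots of unity, products of a power of `Q` and
of at most `n` conjugates of the number `α` (embeddings of the field `E` of `α` in `K`); and on no
nonzero subspace of `T` which is stable under a subgroup of finite index all eigenvalues of the powers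
`F ^ s` are, up to roots of unity, powers of `Q ^ s`. -/
structure WordAct [CharZero K] (ρ : Γ →* (A ≃ₐ[K] A)) (T : Submodule K A) (F : Γ) (Q : K)
    {E : Type} [Field E] [NumberField E] (α : E) (n : ℕ) : Prop where
  eigen : ∀ μ, ∀ x ∈ T, IsEig ρ F μ x → ∃ (D : ℕ) (N : (E →+* K) → ℕ), ∑ σ, N σ ≤ n ∧
    RootEq μ (Q ^ D * ∏ σ, σ α ^ N σ)
  free : ∀ Δ : Subgroup Γ, Δ.FiniteIndex → ∀ U ≤ T, U ≠ ⊥ → (∀ g ∈ Δ, ∀ x ∈ U, ρ g x ∈ U) →
    ∃ s : ℕ, 0 < s ∧ ∃ μ, ∃ x ∈ U, IsEig ρ (F ^ s) μ x ∧ ∀ D : ℕ, ¬ RootEq μ ((Q ^ D) ^ s)

/-- The eigenvalues of `F` are Weil numbers over the field with `p ^ m` elements of some weights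
`w`, and if `w` is even then the slopes are of the form `w / 2 + γ`, `γ ∈ G`. -/
def SlopesAct [CharZero K] (ρ : Γ →* (A ≃ₐ[K] A)) (F : Γ) (p m : ℕ) [Fact p.Prime]
    (G : Set ℚ) : Prop :=
  ∀ μ x, IsEig ρ F μ x → HasSlopesIn p m G μ

end Alg

variable {k : Type u} [Field k] {𝒱 : VarClass k} {ops : CycleOps 𝒱}
  {W : WeilCohomology.{u, v} ops} {Γ : Type w} [Group Γ]

/-- `X` is a variety whose cohomology is generated by the cohomology of a K3 surface with good
reduction of height `h` at a place (for instance `n = 1` and the K3 surface itself, or its power with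
exponent `n`); `F` is a Frobenius element at the place, which has the residue field with `q = p ^ m`
elements. The group `Γ` acts on the cohomology of `X` like a Galois group; numerical and homological
equivalence coincide; the eigenvalues of `F` on the transcendental cohomology are, up to roots of
unity, products of powers of `q` and of at most `n` conjugates of the number `α`; and on no nonzero
subspace of the transcendental cohomology which is stable under a subgroup of finite index all
eigenvalues of the powers of `F` are powers of `q` up to roots of unity. -/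
structure HasK3Reduction (χ : Γ →* W.Kˣ) (F : Γ) (p m : ℕ) [Fact p.Prime] (X : GVar W Γ)
    {E : Type} [Field E] [NumberField E] (α : E) (h b n : ℕ) : Prop where
  galois : IsGaloisAct χ (W.gr X.X) X.X.dim (W.tr X.X) (algClasses W X.X) X.act
  homEqNum : HomEqNum W X.X
  one_ne : (1 : W.H X.X) ≠ 0
  number : IsK3Number p m α h b
  act : WordAct X.act (transcendental W X.X) F ((p : W.K) ^ m) α n

/-- The products `Y = X i × (X j × ( ⋯ × Z))` with different indices (the set `S`), with an action on
the cohomology which is compatible with the projections to the factors. -/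
inductive Tower {r : ℕ} (X : Fin r → GVar W Γ) (Z : GVar W Γ) : Finset (Fin r) → GVar W Γ → Prop
  | base : Tower X Z ∅ Z
  | step {S : Finset (Fin r)} {Y : GVar W Γ} (i : Fin r)
      (υ : Γ →* (W.H ((X i).X.prod Y.X) ≃ₐ[W.K] W.H ((X i).X.prod Y.X))) :
      Tower X Z S Y → i ∉ S → Intertwines (W.map (fst (X i).X Y.X)) (X i).act υ →
      Intertwines (W.map (snd (X i).X Y.X)) Y.act υ →
      Tower X Z (insert i S) ⟨(X i).X.prod Y.X, υ⟩

end Pool.Agent.N179.FG
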