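import Pool.Agent.N179.FG.Defs
import Pool.Agent.TH125.Gal.Tate

/-!
# Eigenvalues on products
-/

set_option autoImplicit false
set_option linter.unusedSectionVars false

open CategoryTheory AlgebraicGeometry
open scoped TensorProduct

universe u v w

namespace Pool.Agent.N179.FG

open Pool.Agent.H914 Pool.Agent.H914.VarClass Pool.Agent.H914.VarClass.Obj
  Pool.Agent.H914.WeilCohomology Pool.Agent.H281R3.HT Pool.Agent.TH125.Gal Pool.Agent.N179.TL

section RootEq

variable {K : Type v} [Field K]

theorem RootEq.refl (x : K) : RootEq x x := ⟨1, one_pos, rfl⟩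

theorem RootEq.symm {x y : K} (h : RootEq x y) : RootEq y x := by
  obtain ⟨s, hs, h⟩ := h
  exact ⟨s, hs, h.symm⟩

theorem RootEq.trans {x y z : K} (h : RootEq x y) (h' : RootEq y z) : RootEq x z := by
  obtain ⟨s, hs, h⟩ := h
  obtain ⟨t, ht, h'⟩ := h'
  refine ⟨s * t, Nat.mul_pos hs ht, ?_⟩
  rw [pow_mul, h, ← pow_mul, mul_comm, pow_mul, h', ← pow_mul]

theorem RootEq.mul {x y x' y' : K} (h : RootEq x y) (h' : RootEq x' y') :
    RootEq (x * x') (y * y') := by
  obtain ⟨s, hs, h⟩ := h
  obtain ⟨t, ht, h'⟩ := h'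
  refine ⟨s * t, Nat.mul_pos hs ht, ?_⟩
  rw [mul_pow, mul_pow]
  congr 1
  · rw [pow_mul, h, ← pow_mul]
  · rw [mul_comm, pow_mul, h', ← pow_mul]

theorem RootEq.pow {x y : K} (h : RootEq x y) (n : ℕ) : RootEq (x ^ n) (y ^ n) := by
  obtain ⟨s, hs, h⟩ := h
  refine ⟨s, hs, ?_⟩
  rw [← pow_mul, mul_comm, pow_mul, h, ← pow_mul, mul_comm, pow_mul]

theorem RootEq.of_pow {x y : K} {n : ℕ} (hn : 0 < n) (h : x ^ n = y ^ n) : RootEq x y :=
  ⟨n, hn, h⟩

end RootEq

section Lin

variable {K : Type v} [Field K] {V V' : Type v} [AddCommGroup V] [Module K V]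
  [FiniteDimensional K V] [AddCommGroup V'] [Module K V'] [FiniteDimensional K V']

/-- eigenvalues of powers -/
theorem eig_pow [IsAlgClosed K] {f : Module.End K V} {n : ℕ} (hn : 0 < n) {μ : K}
    (h : (f ^ n).HasEigenvalue μ) : ∃ ν, f.HasEigenvalue ν ∧ ν ^ n = μ := by
  rw [Module.End.hasEigenvalue_iff_mem_spectrum, spectrum.map_pow_of_pos _ hn] at h
  obtain ⟨ν, hν, rfl⟩ := h
  exact ⟨ν, Module.End.hasEigenvalue_iff_mem_spectrum.2 hν, rfl⟩

/-- eigenvalues of quotients -/
theorem eig_of_surj {a : Module.End K V} {b : Module.End K V'} (ψ : V →ₗ[K] V')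
    (h : ∀ x, ψ (a x) = b (ψ x)) {x : V} {μ : K} (hx : ψ x ≠ 0) (hμ : b (ψ x) = μ • ψ x) :
    a.HasEigenvalue μ := by
  by_contra hcon
  have h1 : Function.Injective (a - μ • (1 : Module.End K V)) := by
    rw [injective_iff_map_eq_zero]
    intro y hy
    by_contra hy0
    exact hcon (Module.End.hasEigenvalue_of_hasEigenvector ⟨Module.End.mem_eigenspace_iff.2 (by
      rw [LinearMap.sub_apply, LinearMap.smul_apply, Module.End.one_apply, sub_eq_zero] at hy
      exact hy), hy0⟩)
  have h2 : Function.Surjective (a - μ • (1 : Module.End K V)) :=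
    LinearMap.injective_iff_surjective.1 h1
  have hst : ∀ y ∈ LinearMap.range ψ, (b - μ • (1 : Module.End K V')) y ∈ LinearMap.range ψ := by
    rintro _ ⟨y, rfl⟩
    refine ⟨(a - μ • (1 : Module.End K V)) y, ?_⟩
    rw [LinearMap.sub_apply, LinearMap.sub_apply, map_sub, h]
    simp
  have h3 : Function.Surjective ((b - μ • (1 : Module.End K V')).restrict hst) := by
    rintro ⟨_, ⟨y, rfl⟩⟩
    obtain ⟨z, rfl⟩ := h2 y
    refine ⟨⟨ψ z, z, rfl⟩, Subtype.ext ?_⟩
    change (b - μ • (1 : Module.End K V')) (ψ z) = ψ ((a - μ • (1 : Module.End K V)) z)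
    rw [LinearMap.sub_apply, LinearMap.sub_apply, map_sub, h]
    simp
  have h4 := LinearMap.injective_iff_surjective.2 h3
  apply hx
  have h5 : (⟨ψ x, x, rfl⟩ : LinearMap.range ψ) = 0 := by
    apply h4
    rw [map_zero]
    apply Subtype.ext
    change (b - μ • (1 : Module.End K V')) (ψ x) = 0
    rw [LinearMap.sub_apply, hμ, LinearMap.smul_apply, Module.End.one_apply, sub_self]
  exact congrArg Subtype.val h5

/-- eigenvalues of the transpose -/
theorem eig_of_dual {g : Module.End K V} {φ : Module.Dual K V} {μ : K} (hφ : φ ≠ 0)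
    (h : ∀ x, φ (g x) = μ * φ x) : g.HasEigenvalue μ := by
  by_contra hcon
  have h1 : Function.Injective (g - μ • (1 : Module.End K V)) := by
    rw [injective_iff_map_eq_zero]
    intro y hy
    by_contra hy0
    exact hcon (Module.End.hasEigenvalue_of_hasEigenvector ⟨Module.End.mem_eigenspace_iff.2 (by
      rw [LinearMap.sub_apply, LinearMap.smul_apply, Module.End.one_apply, sub_eq_zero] at hy
      exact hy), hy0⟩)
  have h2 := LinearMap.injective_iff_surjective.1 h1
  apply hφ
  apply LinearMap.ext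
  intro x
  obtain ⟨y, rfl⟩ := h2 x
  rw [LinearMap.sub_apply, map_sub, h, LinearMap.smul_apply, Module.End.one_apply, map_smul,
    smul_eq_mul, sub_self, LinearMap.zero_apply]

/-- eigenvalues of tensor products -/
theorem eig_tensor [IsAlgClosed K] {f : Module.End K V} {g : Module.End K V'}
    (hf : Function.Injective f) {ν : K}
    (h : Module.End.HasEigenvalue (TensorProduct.map f g : Module.End K (V ⊗[K] V')) ν) :
    ∃ μ μ', f.HasEigenvalue μ ∧ g.HasEigenvalue μ' ∧ ν = μ * μ' := by
  classical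
  set T : Module.End K (V ⊗[K] V') := TensorProduct.map f g with hT
  set A : Module.End K (V ⊗[K] V') := TensorProduct.map f LinearMap.id with hA
  set B : Module.End K (V ⊗[K] V') := TensorProduct.map LinearMap.id g with hB
  have hAB : ∀ z, T z = B (A z) := by
    intro z
    induction z using TensorProduct.induction_on with
    | zero => simp
    | tmul x y => simp [hT, hA, hB]
    | add x y hx hy => rw [map_add, map_add, map_add, hx, hy]
  have hBA : ∀ z, T z = A (B z) := by
    intro z
    induction z using TensorProduct.induction_on with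
    | zero => simp
    | tmul x y => simp [hT, hA, hB]
    | add x y hx hy => rw [map_add, map_add, map_add, hx, hy]
  have hst : ∀ z ∈ T.eigenspace ν, A z ∈ T.eigenspace ν := by
    intro z hz
    rw [Module.End.mem_eigenspace_iff] at hz ⊢
    rw [hBA, ← hAB, hz, map_smul]
  obtain ⟨z₀, hz₀, hz₀0⟩ := h.exists_hasEigenvector
  have : Nontrivial (T.eigenspace ν) := ⟨⟨⟨z₀, hz₀⟩, 0, fun h => hz₀0 (congrArg Subtype.val h)⟩⟩
  obtain ⟨μ, hμ⟩ := Module.End.exists_eigenvalue (A.restrict hst)
  obtain ⟨z, hz, hz0⟩ := hμ.exists_hasEigenvector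
  have hz0' : (z : V ⊗[K] V') ≠ 0 := fun h => hz0 (Subtype.ext h)
  have hAz : A (z : V ⊗[K] V') = μ • (z : V ⊗[K] V') :=
    congrArg Subtype.val (Module.End.mem_eigenspace_iff.1 hz)
  have hTz : T (z : V ⊗[K] V') = ν • (z : V ⊗[K] V') := Module.End.mem_eigenspace_iff.1 z.2
  have hμ1 : f.HasEigenvalue μ := by
    by_contra hcon
    have h1 : Function.Injective (f - μ • (1 : Module.End K V)) := by
      rw [injective_iff_map_eq_zero]
      intro y hy
      by_contra hy0
      exact hcon (Module.End.hasEigenvalue_of_hasEigenvector ⟨Module.End.mem_eigenspace_iff.2 (by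
        rw [LinearMap.sub_apply, LinearMap.smul_apply, Module.End.one_apply, sub_eq_zero] at hy
        exact hy), hy0⟩)
    have h2 : Function.Injective ((f - μ • (1 : Module.End K V)).rTensor V') :=
      Module.Flat.rTensor_preserves_injective_linearMap _ h1
    apply hz0'
    apply h2
    rw [map_zero, LinearMap.rTensor_sub, LinearMap.sub_apply, LinearMap.rTensor_smul,
      LinearMap.smul_apply]
    have h3 : (LinearMap.rTensor V' f) (z : V ⊗[K] V') = A z := rfl
    have h4 : (LinearMap.rTensor V' (1 : Module.End K V)) (z : V ⊗[K] V') = z := by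
      change (LinearMap.rTensor V' LinearMap.id) (z : V ⊗[K] V') = z
      rw [LinearMap.rTensor_id]
      rfl
    rw [h3, h4, hAz, sub_self]
  have hμ0 : μ ≠ 0 := by
    rintro rfl
    obtain ⟨x, hx, hx0⟩ := hμ1.exists_hasEigenvector
    apply hx0
    apply hf
    rw [map_zero, Module.End.mem_eigenspace_iff.1 hx, zero_smul]
  have hBz : B (z : V ⊗[K] V') = (ν / μ) • (z : V ⊗[K] V') := by
    have h1 : μ • B (z : V ⊗[K] V') = ν • (z : V ⊗[K] V') := by
      rw [← map_smul, ← hAz, ← hAB, hTz]
    rw [div_eq_inv_mul, mul_smul, ← h1, smul_smul, inv_mul_cancel₀ hμ0, one_smul]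
  have hμ2 : g.HasEigenvalue (ν / μ) := by
    by_contra hcon
    have h1 : Function.Injective (g - (ν / μ) • (1 : Module.End K V')) := by
      rw [injective_iff_map_eq_zero]
      intro y hy
      by_contra hy0
      exact hcon (Module.End.hasEigenvalue_of_hasEigenvector ⟨Module.End.mem_eigenspace_iff.2 (by
        rw [LinearMap.sub_apply, LinearMap.smul_apply, Module.End.one_apply, sub_eq_zero] at hy
        exact hy), hy0⟩)
    have h2 : Function.Injective ((g - (ν / μ) • (1 : Module.End K V')).lTensor V) :=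
      Module.Flat.lTensor_preserves_injective_linearMap _ h1
    apply hz0'
    apply h2
    rw [map_zero, LinearMap.lTensor_sub, LinearMap.sub_apply, LinearMap.lTensor_smul,
      LinearMap.smul_apply]
    have h3 : (LinearMap.lTensor V g) (z : V ⊗[K] V') = B z := rfl
    have h4 : (LinearMap.lTensor V (1 : Module.End K V')) (z : V ⊗[K] V') = z := by
      change (LinearMap.lTensor V LinearMap.id) (z : V ⊗[K] V') = z
      rw [LinearMap.lTensor_id]
      rfl
    rw [h3, h4, hBz, sub_self]
  exact ⟨μ, ν / μ, hμ1, hμ2, by rw [mul_div_cancel₀ _ hμ0]⟩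

end Lin

end Pool.Agent.N179.FG
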