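import Pool.Agent.N179.FG.Lin
import Pool.Agent.TH125.Gal.Tower

/-!
# Tate classes on products with K3 surfaces
-/

set_option autoImplicit false
set_option linter.unusedSectionVars false

open CategoryTheory AlgebraicGeometry
open scoped TensorProduct

universe u v w

namespace Pool.Agent.N179.FG

open Pool.Agent.H914 Pool.Agent.H914.VarClass Pool.Agent.H914.VarClass.Obj
  Pool.Agent.H914.WeilCohomology Pool.Agent.H281R3.HT Pool.Agent.TH125.Gal Pool.Agent.N179.TL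

variable {k : Type u} [Field k] {𝒱 : VarClass k} {ops : CycleOps 𝒱}
  {W : WeilCohomology.{u, v} ops}

/-- Contraction with a linear form on the second factor. -/
noncomputable def ctr2 {A Z : 𝒱.Obj} (φ : W.H Z →ₗ[W.K] W.K) : W.H (A.prod Z) →ₗ[W.K] W.H A :=
  (TensorProduct.rid W.K (W.H A)).toLinearMap ∘ₗ (φ.lTensor (W.H A)) ∘ₗ
    (kEquiv W A Z).symm.toLinearMap

theorem ctr2_apply {A Z : 𝒱.Obj} (φ : W.H Z →ₗ[W.K] W.K) (a : W.H A) (z : W.H Z) :
    ctr2 φ (W.map (fst A Z) a * W.map (snd A Z) z) = φ z • a := by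
  change TensorProduct.rid W.K (W.H A) (φ.lTensor (W.H A) ((kEquiv W A Z).symm _)) = _
  rw [kEquiv_symm, LinearMap.lTensor_tmul, TensorProduct.rid_tmul]

theorem ctr2_add {A Z : 𝒱.Obj} (φ ψ : W.H Z →ₗ[W.K] W.K) (c : W.H (A.prod Z)) :
    ctr2 (φ + ψ) c = ctr2 φ c + ctr2 ψ c := by
  refine kun_ext (L := fun c => ctr2 (φ + ψ) c) (L' := fun c => ctr2 φ c + ctr2 ψ c)
    (fun a b => map_add _ _ _) (fun a b => ?_) (fun a z => ?_) c
  · simp only [map_add]
    abel
  · simp only [ctr2_apply, LinearMap.add_apply, add_smul]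

theorem ctr2_smul {A Z : 𝒱.Obj} (r : W.K) (φ : W.H Z →ₗ[W.K] W.K) (c : W.H (A.prod Z)) :
    ctr2 (r • φ) c = r • ctr2 φ c := by
  refine kun_ext (L := fun c => ctr2 (r • φ) c) (L' := fun c => r • ctr2 φ c)
    (fun a b => map_add _ _ _) (fun a b => ?_) (fun a z => ?_) c
  · simp only [map_add, smul_add]
  · simp only [ctr2_apply, LinearMap.smul_apply, smul_eq_mul, mul_smul]

/-- Expansion in a basis of the cohomology of the second factor. -/
theorem expand2 {A Z : 𝒱.Obj} {R : Type*} [Fintype R] (b : Module.Basis R W.K (W.H Z))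
    (c : W.H (A.prod Z)) :
    c = ∑ r, W.map (fst A Z) (ctr2 (b.coord r) c) * W.map (snd A Z) (b r) := by
  refine kun_ext (L := fun c => c) (L' := fun c => ∑ r, W.map (fst A Z) (ctr2 (b.coord r) c) *
    W.map (snd A Z) (b r)) (fun _ _ => rfl) ?_ ?_ c
  · intro a c
    rw [← Finset.sum_add_distrib]
    refine Finset.sum_congr rfl fun r _ => ?_
    rw [map_add, map_add, add_mul]
  · intro a z
    simp only [ctr2_apply, map_smul]
    have h1 : ∀ r, b.coord r z • W.map (fst A Z) a * W.map (snd A Z) (b r) =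
        W.map (fst A Z) a * W.map (snd A Z) (b.repr z r • b r) := by
      intro r
      rw [map_smul, smul_mul_assoc, mul_smul_comm]
      rfl
    rw [Finset.sum_congr rfl fun r _ => h1 r, ← Finset.mul_sum, ← map_sum, b.sum_repr]

section

variable {Γ : Type w} [Group Γ] {χ : Γ →* W.Kˣ} {X Y : GVar W Γ}
  {υ : Γ →* (W.H (X.X.prod Y.X) ≃ₐ[W.K] W.H (X.X.prod Y.X))}

theorem ctr2_act (h1 : Intertwines (W.map (fst X.X Y.X)) X.act υ)
    (h2 : Intertwines (W.map (snd X.X Y.X)) Y.act υ) (g : Γ) (φ : W.H Y.X →ₗ[W.K] W.K)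
    (c : W.H (X.X.prod Y.X)) :
    ctr2 φ (υ g c) = X.act g (ctr2 (φ ∘ₗ (Y.act g).toLinearMap) c) := by
  refine kun_ext (L := fun c => ctr2 φ (υ g c))
    (L' := fun c => X.act g (ctr2 (φ ∘ₗ (Y.act g).toLinearMap) c)) (fun a b => ?_)
    (fun a b => ?_) (fun a z => ?_) c
  · simp only [map_add]
  · simp only [map_add]
  · simp only [ctr2_apply, map_mul, h1 g, h2 g, map_smul]
    rfl

/-- The projection to the transcendental part. -/
noncomputable def pT (hDX : HomEqNum W X.X) : W.H X.X →ₗ[W.K] W.H X.X :=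
  (transcendental W X.X).projection (algSpan W X.X) (isCompl hDX).symm

theorem pT_mem (hDX : HomEqNum W X.X) (x : W.H X.X) : pT hDX x ∈ transcendental W X.X :=
  Submodule.projection_apply_mem _ _

theorem pT_eq_zero (hDX : HomEqNum W X.X) {x : W.H X.X} : pT hDX x = 0 ↔ x ∈ algSpan W X.X :=
  Submodule.projection_apply_eq_zero_iff _

theorem pT_act (hDX : HomEqNum W X.X) (hG : IsGalois W χ X.X X.act) (g : Γ) (x : W.H X.X) :
    pT hDX (X.act g x) = X.act g (pT hDX x) := by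
  have hx : x ∈ algSpan W X.X ⊔ transcendental W X.X := by
    rw [(isCompl hDX).sup_eq_top]
    trivial
  obtain ⟨a, ha, t, ht, rfl⟩ := Submodule.mem_sup.1 hx
  rw [map_add, map_add, map_add, map_add, (pT_eq_zero hDX).2 ha,
    (pT_eq_zero hDX).2 (act_algSpan hG g ha), zero_add, map_zero, zero_add]
  have h1 : pT hDX t = t := Submodule.projection_apply_of_mem_left _ ht
  have h2 : pT hDX (X.act g t) = X.act g t :=
    Submodule.projection_apply_of_mem_left _ (act_trans hG g ht)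
  rw [h1, h2]

variable {F : Γ} {p m : ℕ} [Fact p.Prime] {E : Type} [Field E] [NumberField E] {α : E} {h b n : ℕ}

/-- **The Tate classes on the product are in the span of the products with algebraic classes.** -/
theorem split_alg [IsAlgClosed W.K] (hX : HasK3Reduction χ F p m X α h b n)
    (h1 : Intertwines (W.map (fst X.X Y.X)) X.act υ)
    (h2 : Intertwines (W.map (snd X.X Y.X)) Y.act υ)
    (hno : ∀ (μ ν : W.K) (j : ℕ), (∃ x ∈ transcendental W X.X, IsEig X.act F μ x) →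
      Module.End.HasEigenvalue (Y.act F).toLinearMap ν → RootEq (μ * ν) ((χ F : W.K) ^ j) →
        ∃ D : ℕ, RootEq μ (((p : W.K) ^ m) ^ D))
    {c : W.H (X.X.prod Y.X)} {j : ℕ} {Δ : Subgroup Γ} (hΔ : Δ.FiniteIndex)
    (hc : ∀ g ∈ Δ, υ g c = (χ g : W.K) ^ j • c) :
    c ∈ Submodule.span W.K {w | ∃ a ∈ algSpan W X.X, ∃ y : W.H Y.X,
      w = W.map (fst X.X Y.X) a * W.map (snd X.X Y.X) y} := by
  classical
  have hG : IsGalois W χ X.X X.act := isGalois hX.galois
  have hDX := hX.homEqNum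
  -- the map
  let Ψ : Module.Dual W.K (W.H Y.X) →ₗ[W.K] W.H X.X :=
    { toFun := fun φ => pT hDX (ctr2 φ c)
      map_add' := fun φ ψ => by rw [ctr2_add, map_add]
      map_smul' := fun r φ => by rw [ctr2_smul, map_smul]; rfl }
  have hΨ : ∀ φ, Ψ φ = pT hDX (ctr2 φ c) := fun φ => rfl
  have hctr : ∀ g ∈ Δ, ∀ φ : Module.Dual W.K (W.H Y.X),
      (χ g : W.K) ^ j • ctr2 φ c = X.act g (ctr2 (φ ∘ₗ (Y.act g).toLinearMap) c) := by
    intro g hg φ
    rw [← ctr2_act h1 h2, hc g hg, map_smul]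
  have hΨg : ∀ g ∈ Δ, ∀ φ : Module.Dual W.K (W.H Y.X),
      (χ g : W.K) ^ j • Ψ φ = X.act g (Ψ (φ ∘ₗ (Y.act g).toLinearMap)) := by
    intro g hg φ
    rw [hΨ, hΨ, ← pT_act hDX hG, ← hctr g hg, map_smul]
  by_cases hU : LinearMap.range Ψ = ⊥
  · -- all contractions are algebraic
    have h3 : ∀ φ, ctr2 φ c ∈ algSpan W X.X := by
      intro φ
      rw [← pT_eq_zero hDX, ← hΨ]
      have h4 : Ψ φ ∈ LinearMap.range Ψ := ⟨φ, rfl⟩
      rw [hU] at h4
      exact (Submodule.mem_bot _).1 h4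
    rw [expand2 (Module.finBasis W.K (W.H Y.X)) c]
    exact Submodule.sum_mem _ fun r _ => Submodule.subset_span ⟨_, h3 _, _, rfl⟩
  exfalso
  have hUT : LinearMap.range Ψ ≤ transcendental W X.X := by
    rintro _ ⟨φ, rfl⟩
    exact pT_mem hDX _
  have hinv : ∀ (Z : GVar W Γ) (g : Γ) (x : W.H Z.X), Z.act g (Z.act g⁻¹ x) = x :=
    fun Z g x => act_inv Z.act g x
  have hinv' : ∀ (Z : GVar W Γ) (g : Γ) (x : W.H Z.X), Z.act g⁻¹ (Z.act g x) = x := by
    intro Z g x
    have := act_inv Z.act g⁻¹ x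
    rwa [inv_inv] at this
  have hUst : ∀ g ∈ Δ, ∀ x ∈ LinearMap.range Ψ, X.act g x ∈ LinearMap.range Ψ := by
    rintro g hg _ ⟨φ, rfl⟩
    have h3 := hΨg g hg (φ ∘ₗ (Y.act g⁻¹).toLinearMap)
    have h4 : (φ ∘ₗ (Y.act g⁻¹).toLinearMap) ∘ₗ (Y.act g).toLinearMap = φ := by
      apply LinearMap.ext
      intro y
      change φ (Y.act g⁻¹ (Y.act g y)) = φ y
      rw [hinv' Y]
    rw [h4] at h3
    rw [← h3]
    exact Submodule.smul_mem _ _ ⟨_, rfl⟩
  obtain ⟨s, hs, μ, x, ⟨φ₀, rfl⟩, ⟨hx0, hxμ⟩, hμ⟩ := hX.act.free Δ hΔ _ hUT hU hUst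
  -- the eigenvalue `μ`
  have hT1 : Module.End.HasEigenvalue ((rhoT hG F : Module.End W.K (transcendental W X.X)) ^ s)
      μ := by
    refine Module.End.hasEigenvalue_of_hasEigenvector (x := ⟨Ψ φ₀, hUT ⟨φ₀, rfl⟩⟩)
      ⟨Module.End.mem_eigenspace_iff.2 ?_, fun h => hx0 (congrArg Subtype.val h)⟩
    rw [← map_pow]
    apply Subtype.ext
    exact hxμ
  obtain ⟨μ₁, hμ₁, rfl⟩ := eig_pow hs hT1
  obtain ⟨x₁, hx₁, hx₁0⟩ := hμ₁.exists_hasEigenvector
  have hx₁' : X.act F (x₁ : W.H X.X) = μ₁ • (x₁ : W.H X.X) :=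
    congrArg Subtype.val (Module.End.mem_eigenspace_iff.1 hx₁)
  -- an element of `Δ`
  obtain ⟨t, ht, -, htΔ⟩ := Subgroup.exists_pow_mem_of_index_ne_zero hΔ.index_ne_zero F
  set G : Γ := F ^ (s * t) with hGdef
  have hGΔ : G ∈ Δ := by
    rw [hGdef, mul_comm, pow_mul]
    exact Subgroup.pow_mem _ htΔ _
  have hst : 0 < s * t := Nat.mul_pos hs ht
  have hμ₁0 : μ₁ ≠ 0 := by
    rintro rfl
    rw [zero_smul] at hx₁'
    apply hx₁0
    apply Subtype.ext
    exact (X.act F).injective (hx₁'.trans (map_zero _).symm)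
  have hpowact : ∀ (n : ℕ) (x : W.H X.X) (ν : W.K), X.act (F ^ s) x = ν • x →
      X.act (F ^ (s * n)) x = ν ^ n • x := by
    intro n x ν hx
    induction n with
    | zero => rw [mul_zero, pow_zero, map_one, pow_zero, one_smul]; rfl
    | succ n ih =>
      rw [mul_add, mul_one, pow_add, map_mul]
      change X.act (F ^ (s * n)) (X.act (F ^ s) x) = _
      rw [hx, map_smul, ih, smul_smul, pow_succ']
  have hGx : X.act G (Ψ φ₀) = (μ₁ ^ s) ^ t • Ψ φ₀ := hpowact t _ _ hxμ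
  set κ : W.K := (χ G : W.K) ^ j with hκ
  have hM0 : (μ₁ ^ s) ^ t ≠ 0 := pow_ne_zero _ (pow_ne_zero _ hμ₁0)
  -- the eigenvalue on the second factor
  let a : Module.End W.K (Module.Dual W.K (W.H Y.X)) :=
    Module.Dual.transpose (R := W.K) (Y.act G).toLinearMap
  let bb : Module.End W.K (W.H X.X) := κ • (X.act G⁻¹).toLinearMap
  have hab : ∀ φ, Ψ (a φ) = bb (Ψ φ) := by
    intro φ
    have h4 := hΨg G hGΔ φ
    have h5 := congrArg (X.act G⁻¹) h4
    rw [hinv' X, map_smul] at h5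
    exact h5.symm
  have hbx : bb (Ψ φ₀) = (κ / (μ₁ ^ s) ^ t) • Ψ φ₀ := by
    have h4 := congrArg (X.act G⁻¹) hGx
    rw [hinv' X, map_smul] at h4
    change κ • X.act G⁻¹ (Ψ φ₀) = _
    rw [div_eq_mul_inv, mul_smul]
    congr 1
    rw [eq_inv_smul_iff₀ hM0]
    exact h4.symm
  have h4 := eig_of_surj Ψ hab hx0 hbx
  obtain ⟨φ, hφ, hφ0⟩ := h4.exists_hasEigenvector
  have h5 : Module.End.HasEigenvalue (Y.act G).toLinearMap (κ / (μ₁ ^ s) ^ t) := by
    refine eig_of_dual hφ0 fun y => ?_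
    have h6 := LinearMap.congr_fun (Module.End.mem_eigenspace_iff.1 hφ) y
    exact h6
  have h6 : ((Y.act F).toLinearMap : Module.End W.K (W.H Y.X)) ^ (s * t) =
      (Y.act G).toLinearMap := by
    apply LinearMap.ext
    intro y
    rw [hGdef]
    generalize s * t = n
    induction n generalizing y with
    | zero => rw [pow_zero, pow_zero, map_one]; rfl
    | succ n ih =>
      rw [pow_succ, pow_succ, map_mul, Module.End.mul_apply, ih]
      rfl
  rw [← h6] at h5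
  obtain ⟨ν, hν, hνG⟩ := eig_pow hst h5
  obtain ⟨D, hD⟩ := hno μ₁ ν j ⟨x₁, x₁.2, fun h => hx₁0 (Subtype.ext h), hx₁'⟩ hν
    (RootEq.of_pow hst (by
      rw [mul_pow, hνG, pow_mul μ₁, mul_div_cancel₀ _ hM0, hκ, hGdef, map_pow,
        Units.val_pow_eq_pow_val, ← pow_mul, ← pow_mul, mul_comm]))
  exact hμ D (hD.pow s)

end

end Pool.Agent.N179.FG
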