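import Pool.Agent.N179.FG.Step

/-!
# The Tate conjecture for products with K3 surfaces
-/

set_option autoImplicit false
set_option linter.unusedSectionVars false

open CategoryTheory AlgebraicGeometry
open scoped TensorProduct

universe u v w

namespace Pool.Agent.N179.FG

open Pool.Agent.H914 Pool.Agent.H914.VarClass Pool.Agent.H914.VarClass.Obj
  Pool.Agent.H914.WeilCohomology Pool.Agent.H281R3.HT Pool.Agent.TH125.Gal Pool.Agent.N179.TL
  Pool.Agent.W552

variable {k : Type u} [Field k] {𝒱 : VarClass k} {ops : CycleOps 𝒱}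
  {W : WeilCohomology.{u, v} ops} {Γ : Type w} [Group Γ] {χ : Γ →* W.Kˣ} {X Y : GVar W Γ}
  {υ : Γ →* (W.H (X.X.prod Y.X) ≃ₐ[W.K] W.H (X.X.prod Y.X))}

theorem coord_inr (s : SB W X.X) {a : W.H X.X} (ha : a ∈ algSpan W X.X) (i : Fin s.NT) :
    s.e.coord (Sum.inr i) a = 0 := by
  have h1 := s.bC.sum_repr ⟨a, ha⟩
  have h2 : a = ∑ i, s.bC.repr ⟨a, ha⟩ i • s.e (Sum.inl i) := by
    conv_lhs => rw [show a = ((⟨a, ha⟩ : algSpan W X.X) : W.H X.X) from rfl, ← h1]
    rw [Submodule.coe_sum]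
    refine Finset.sum_congr rfl fun i _ => ?_
    rw [s.e_inl]
    rfl
  rw [h2, map_sum]
  refine Finset.sum_eq_zero fun l _ => ?_
  rw [map_smul, Module.Basis.coord_apply, Module.Basis.repr_self, Finsupp.single_apply,
    if_neg (by simp), smul_zero]

theorem coord_inl (s : SB W X.X) (i j : Fin s.NC) :
    s.e.coord (Sum.inl i) (s.bC j : W.H X.X) = if j = i then 1 else 0 := by
  rw [← s.e_inl, Module.Basis.coord_apply, Module.Basis.repr_self, Finsupp.single_apply]
  simp

/-- expansion of the elements of the span -/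
theorem expand_alg (s : SB W X.X) {c : W.H (X.X.prod Y.X)}
    (hc : c ∈ Submodule.span W.K {w | ∃ a ∈ algSpan W X.X, ∃ y : W.H Y.X,
      w = W.map (fst X.X Y.X) a * W.map (snd X.X Y.X) y}) :
    c = ∑ i : Fin s.NC, W.map (fst X.X Y.X) (s.bC i : W.H X.X) *
      W.map (snd X.X Y.X) (ctr (s.e.coord (Sum.inl i)) c) := by
  have h1 := expand s.e c
  rw [Fintype.sum_sum_type] at h1
  have h2 : ∀ i : Fin s.NT, ctr (Z := Y.X) (s.e.coord (Sum.inr i)) c = 0 := by
    intro i
    induction hc using Submodule.span_induction with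
    | mem w hw =>
      obtain ⟨a, ha, y, rfl⟩ := hw
      rw [ctr_apply, coord_inr s ha, zero_smul]
    | zero => rw [map_zero]
    | add x y _ _ hx hy =>
      rw [map_add, hx (expand s.e x |>.trans (Fintype.sum_sum_type _)),
        hy (expand s.e y |>.trans (Fintype.sum_sum_type _)), add_zero]
    | smul q x _ hx => rw [map_smul, hx (expand s.e x |>.trans (Fintype.sum_sum_type _)), smul_zero]
  have h3 : ∑ i : Fin s.NT, W.map (fst X.X Y.X) (s.e (Sum.inr i)) *
      W.map (snd X.X Y.X) (ctr (s.e.coord (Sum.inr i)) c) = 0 :=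
    Finset.sum_eq_zero fun i _ => by rw [h2, map_zero, mul_zero]
  rw [h3, add_zero] at h1
  conv_lhs => rw [h1]
  refine Finset.sum_congr rfl fun i _ => ?_
  rw [s.e_inl]

/-- **The Tate conjecture for the product from the splitting of the Tate classes.** -/
theorem tate_of_split (hDX : HomEqNum W X.X)
    (hX : IsGaloisAct χ (W.gr X.X) X.X.dim (W.tr X.X) (algClasses W X.X) X.act)
    (h1 : Intertwines (W.map (fst X.X Y.X)) X.act υ)
    (h2 : Intertwines (W.map (snd X.X Y.X)) Y.act υ)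
    (hsplit : ∀ (c : W.H (X.X.prod Y.X)) (j : ℕ) (Δ : Subgroup Γ), Δ.FiniteIndex →
      (∀ g ∈ Δ, υ g c = (χ g : W.K) ^ j • c) →
      c ∈ Submodule.span W.K {w | ∃ a ∈ algSpan W X.X, ∃ y : W.H Y.X,
        w = W.map (fst X.X Y.X) a * W.map (snd X.X Y.X) y})
    (hT : TateConjecture χ Y) : TateConjecture χ (⟨X.X.prod Y.X, υ⟩ : GVar W Γ) := by
  have hG : IsGalois W χ X.X X.act := isGalois hX
  obtain ⟨s⟩ := exists_SB hDX
  intro j c hcj ⟨Δ, hΔ, hc⟩
  have hexp := expand_alg s (hsplit c j Δ hΔ hc)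
  obtain ⟨Δ', hΔ', hfix⟩ := exists_fix hG s
  -- uniqueness
  have huni : ∀ (x : Fin s.NC → W.H Y.X) (l : Fin s.NC),
      ctr (s.e.coord (Sum.inl l)) (∑ l', W.map (fst X.X Y.X) (s.bC l' : W.H X.X) *
        W.map (snd X.X Y.X) (x l')) = x l := by
    intro x l
    rw [map_sum, Finset.sum_eq_single l]
    · rw [ctr_apply, coord_inl, if_pos rfl, one_smul]
    · intro l' _ hl
      rw [ctr_apply, coord_inl, if_neg hl, zero_smul]
    · intro h
      exact absurd (Finset.mem_univ _) h
  set x : Fin s.NC → W.H Y.X := fun l => ctr (s.e.coord (Sum.inl l)) c with hx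
  have hdeg : ∀ l, x l = if 2 * s.jC l ≤ 2 * j then
      H914.proj (W.isInternal Y.X) (2 * j - 2 * s.jC l) (x l) else 0 := by
    intro l
    have h3 : c = ∑ l', W.map (fst X.X Y.X) (s.bC l' : W.H X.X) * W.map (snd X.X Y.X)
        (if 2 * s.jC l' ≤ 2 * j then
          H914.proj (W.isInternal Y.X) (2 * j - 2 * s.jC l') (x l') else 0) := by
      conv_lhs => rw [← H914.proj_same (W.isInternal _) hcj, hexp]
      rw [map_sum]
      refine Finset.sum_congr rfl fun l' _ => ?_
      rw [TH125.Gal.proj_ext (alg_gr (s.alg l'))]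
      by_cases h : 2 * s.jC l' ≤ 2 * j
      · rw [if_pos h, if_pos h]
      · rw [if_neg h, if_neg h, map_zero, mul_zero]
    conv_lhs => rw [hx]
    beta_reduce
    rw [h3]
    exact huni _ l
  -- semi-invariance
  have hact : ∀ g ∈ Δ ⊓ Δ', ∀ l, (χ g : W.K) ^ s.jC l • Y.act g (x l) = (χ g : W.K) ^ j • x l := by
    intro g hg l
    have h3 : υ g c = ∑ l', W.map (fst X.X Y.X) (s.bC l' : W.H X.X) * W.map (snd X.X Y.X)
        ((χ g : W.K) ^ s.jC l' • Y.act g (x l')) := by
      conv_lhs => rw [hexp]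
      rw [map_sum]
      refine Finset.sum_congr rfl fun l' _ => ?_
      rw [map_mul, h1 g, hfix g hg.2, h2 g, map_smul, map_smul, smul_mul_assoc, mul_smul_comm]
    have h4 := huni (fun l' => (χ g : W.K) ^ s.jC l' • Y.act g (x l')) l
    rw [← h3] at h4
    have h5 : υ g c = (χ g : W.K) ^ j • c := hc g hg.1
    rw [h5, map_smul] at h4
    exact h4.symm
  have halg : ∀ l, x l ∈ algSpan W Y.X := by
    intro l
    by_cases h : 2 * s.jC l ≤ 2 * j
    · have h3 := hdeg l
      rw [if_pos h] at h3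
      have h4 : x l ∈ W.gr Y.X (2 * (j - s.jC l)) := by
        rw [h3, show 2 * (j - s.jC l) = 2 * j - 2 * s.jC l by omega]
        exact H914.proj_mem _ _ _
      have h5 := hT (j - s.jC l) (x l) h4 ⟨Δ ⊓ Δ', inferInstance, fun g hg => ?_⟩
      · exact Submodule.span_mono (Set.subset_iUnion _ _) h5
      · have h6 := hact g hg l
        have h7 : (χ g : W.K) ^ j = (χ g : W.K) ^ s.jC l * (χ g : W.K) ^ (j - s.jC l) := by
          rw [← pow_add]
          congr 1
          omega
        rw [h7, mul_smul] at h6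
        exact smul_right_injective _ (pow_ne_zero _ (Units.ne_zero (χ g))) h6
    · have h3 := hdeg l
      rw [if_neg h] at h3
      rw [h3]
      exact Submodule.zero_mem _
  refine algSpan_gr ?_ hcj
  rw [hexp]
  refine Submodule.sum_mem _ fun l _ => ?_
  exact algSpan_mul (algSpan_map _ (s.bC l).2) (algSpan_map _ (halg l))

/-- The Tate conjecture for a product implies it for the factor. -/
theorem tate_conv0 (hDX : HomEqNum W X.X) (hone : (1 : W.H X.X) ≠ 0)
    (h2 : Intertwines (W.map (snd X.X Y.X)) Y.act υ)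
    (hT : TateConjecture χ (⟨X.X.prod Y.X, υ⟩ : GVar W Γ)) : TateConjecture χ Y := by
  intro j c hcj ⟨Δ, hΔ, hc⟩
  have h3 := hT j (W.map (snd X.X Y.X) c) (W.map_mem _ hcj) ⟨Δ, hΔ, fun g hg => by
    change υ g _ = _
    rw [h2 g, hc g hg, map_smul]⟩
  obtain ⟨a, ha, ha0⟩ := exists_pt hDX hone
  have h4 : W.push (snd X.X Y.X) (W.map (fst X.X Y.X) a * W.map (snd X.X Y.X) c) ∈
      algSpan W Y.X :=
    algSpan_push _ (algSpan_mul (algSpan_map _ (alg_mem ha))
      (Submodule.span_mono (Set.subset_iUnion _ j) h3))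
  rw [W.push_snd] at h4
  have h5 := Submodule.smul_mem _ (W.tr X.X a)⁻¹ h4
  rw [smul_smul, inv_mul_cancel₀ ha0, one_smul] at h5
  exact algSpan_gr h5 hcj

end Pool.Agent.N179.FG
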